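import Pool.Agent.N440.LB.Stm

/-! # Project LB (helper440), part GF: the primitive of the chord function (helper327) -/

set_option autoImplicit false

namespace Pool.Agent.N327.LB

open Complex Set MeasureTheory Filter Topology Pool.Agent.W780.PG Pool.Agent.W780.BB
  Pool.Agent.TH103.BL Pool.Agent.N440.LB

open scoped Real ComplexConjugate

theorem off_add (θ : ℝ) (z w : ℂ) : off θ (z + w) = off θ z + off θ w := by
  unfold off
  rw [mul_add, Complex.add_im]

theorem off_smul (θ r : ℝ) (z : ℂ) : off θ (r • z) = r * off θ z := by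
  unfold off
  rw [Complex.real_smul, mul_left_comm, Complex.im_ofReal_mul]

theorem norm_dir (θ : ℝ) : ‖dir θ‖ = 1 := by
  unfold dir
  rw [Complex.norm_exp_ofReal_mul_I]

theorem abs_off (θ : ℝ) (z : ℂ) : |off θ z| ≤ ‖z‖ := by
  unfold off
  refine (Complex.abs_im_le_norm _).trans ?_
  rw [norm_mul, RCLike.norm_conj, norm_dir, one_mul]

theorem off_dir (θ θ' : ℝ) : off θ (dir θ') = Real.sin (θ' - θ) := by
  unfold off dir
  rw [← Complex.exp_conj, ← Complex.exp_add, map_mul, Complex.conj_I, Complex.conj_ofReal]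
  have e : (θ : ℂ) * -I + (θ' : ℂ) * I = ((θ' - θ : ℝ) : ℂ) * I := by
    push_cast
    ring
  rw [e, Complex.exp_ofReal_mul_I_im]

theorem off_zero (θ : ℝ) : off θ 0 = 0 := by
  unfold off
  rw [mul_zero, Complex.zero_im]

theorem off_cont : Continuous fun x : ℂ × ℝ => off x.2 x.1 := by
  unfold off dir
  fun_prop

variable {F : ℝ → ℝ → ℝ} {C : ℝ}

theorem int_F (hF : Measurable (Function.uncurry F)) (hC : ∀ θ u, |F θ u| ≤ C) (θ a b : ℝ) :
    IntervalIntegrable (F θ) volume a b := by
  have hm : Measurable (F θ) := hF.comp (measurable_const.prodMk measurable_id)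
  rw [intervalIntegrable_iff]
  refine Measure.integrableOn_of_bounded (M := C) ?_ hm.aestronglyMeasurable
    (Filter.Eventually.of_forall fun u => hC θ u)
  simp

theorem incr (hF : Measurable (Function.uncurry F)) (hC : ∀ θ u, |F θ u| ≤ C) (θ s : ℝ)
    (z v : ℂ) : G F (z + s • v) θ - G F z θ =
      (∫ r in (0 : ℝ)..s, F θ (off θ (z + r • v))) * off θ v := by
  unfold G
  rw [intervalIntegral.integral_interval_sub_left (int_F hF hC θ _ _) (int_F hF hC θ _ _)]
  have h := intervalIntegral.mul_integral_comp_mul_add (a := 0) (b := s) (f := F θ) (off θ v) (off θ z)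
  rw [mul_comm]
  rw [mul_zero, zero_add] at h
  have e1 : off θ (z + s • v) = off θ v * s + off θ z := by
    rw [off_add, off_smul]
    ring
  have e2 : ∀ r : ℝ, off θ (z + r • v) = off θ v * r + off θ z := by
    intro r
    rw [off_add, off_smul]
    ring
  simp only [e2]
  exact h.symm

theorem t_GF : S_GF := by
  intro F C hF hC
  have hC0 : 0 ≤ C := (abs_nonneg _).trans (hC 0 0)
  refine ⟨?_, ?_, ?_, ?_⟩
  · have e : (fun x : ℂ × ℝ => G F x.1 x.2) = fun x : ℂ × ℝ =>
        (∫ r in Ioc (0 : ℝ) 1, F x.2 (off x.2 (r • x.1))) * off x.2 x.1 := by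
      funext x
      have h := incr hF hC x.2 1 0 x.1
      have h0 : G F 0 x.2 = 0 := by
        unfold G
        rw [off_zero, intervalIntegral.integral_same]
      rw [h0, sub_zero, one_smul, zero_add, intervalIntegral.integral_of_le zero_le_one] at h
      simp only [zero_add] at h
      exact h
    rw [e]
    have hm : Measurable fun y : (ℂ × ℝ) × ℝ => F y.1.2 (off y.1.2 (y.2 • y.1.1)) := by
      have h1 : Measurable fun y : (ℂ × ℝ) × ℝ => (y.1.2, off y.1.2 (y.2 • y.1.1)) := by
        refine Measurable.prodMk (by fun_prop) ?_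
        have h2 : Continuous fun y : (ℂ × ℝ) × ℝ => off y.1.2 (y.2 • y.1.1) :=
          off_cont.comp (by fun_prop : Continuous fun y : (ℂ × ℝ) × ℝ => (y.2 • y.1.1, y.1.2))
        exact h2.measurable
      exact hF.comp h1
    have hs : Measurable fun x : ℂ × ℝ => ∫ r in Ioc (0 : ℝ) 1, F x.2 (off x.2 (r • x.1)) :=
      (hm.stronglyMeasurable.integral_prod_right (ν := volume.restrict (Ioc (0 : ℝ) 1))).measurable
    exact hs.mul off_cont.measurable
  · intro z θ
    have h := intervalIntegral.norm_integral_le_of_norm_le_const (a := 0) (b := off θ z)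
      (f := F θ) (C := C) (fun u _ => hC θ u)
    rw [sub_zero] at h
    unfold G
    refine h.trans (mul_le_mul_of_nonneg_left (abs_off θ z) hC0)
  · intro θ z w
    have h := incr hF hC θ 1 z (w - z)
    rw [one_smul, add_sub_cancel] at h
    exact h
  · intro θ θ' s z
    have h := incr hF hC θ s z (dir θ')
    rw [off_dir] at h
    exact h

end Pool.Agent.N327.LB
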